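import Mathlib

/-!
# Packings of a board by blocks and monomers

The board consists of the unit cells `(i, j)`, `i, j < M`; its lattice points are `(a, b)`,
`a, b ≤ M`.  A cell is either a block cell (`big i j = true`) or a quarter cell.  An item in a
block cell covers all four corners of the cell, an item in a quarter cell covers exactly one
corner.  The corners of the cell `(i, j)` have the numbers `0` (lower left, the point `(i, j)`),
`1` (lower right, `(i + 1, j)`), `2` (upper left, `(i, j + 1)`), `3` (upper right,
`(i + 1, j + 1)`).  No lattice point is covered twice.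
-/

namespace Pool.Agent.Helper14.RadoUB

/-- packings of the board of size `M`; `c i j k` says that the item in the cell `(i, j)` covers
the corner number `k` of this cell -/
structure Packing (big : ℕ → ℕ → Bool) (M : ℕ) where
  c : ℕ → ℕ → Fin 4 → Bool
  out : ∀ i j k, M ≤ i ∨ M ≤ j → c i j k = false
  blk : ∀ i j, big i j = true → ∀ k l, c i j k = c i j l
  mono : ∀ i j, big i j = false → ∀ k l, c i j k = true → c i j l = true → k = l
  inner : ∀ i j, (c i j 3).toNat + (c (i + 1) j 2).toNat + (c i (j + 1) 1).toNat
    + (c (i + 1) (j + 1) 0).toNat ≤ 1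
  left : ∀ j, (c 0 j 2).toNat + (c 0 (j + 1) 0).toNat ≤ 1
  bottom : ∀ i, (c i 0 1).toNat + (c (i + 1) 0 0).toNat ≤ 1

/-- the number of covered lattice points -/
def Packing.weight {big : ℕ → ℕ → Bool} {M : ℕ} (P : Packing big M) : ℕ :=
  ∑ i ∈ Finset.range M, ∑ j ∈ Finset.range M, ∑ k : Fin 4, (P.c i j k).toNat

end Pool.Agent.Helper14.RadoUB
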