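import Pool.Agent.Helper14.RadoUB.Strip

/-!
# The density bound: at most `49/50` of the lattice points can be covered
-/

namespace Pool.Agent.Helper14.RadoUB

theorem sum_off (q N : ℕ) :
    ∑ j ∈ Finset.range (10 * N), (2 + off ((j + 5 * q) % 10)) = 21 * N := by
  induction N with
  | zero => simp
  | succ N ih =>
    have h1 : 10 * (N + 1) = 10 * N + 1 + 1 + 1 + 1 + 1 + 1 + 1 + 1 + 1 + 1 := by ring
    rw [h1]
    rw [Finset.sum_range_succ, Finset.sum_range_succ, Finset.sum_range_succ,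
      Finset.sum_range_succ, Finset.sum_range_succ, Finset.sum_range_succ,
      Finset.sum_range_succ, Finset.sum_range_succ, Finset.sum_range_succ,
      Finset.sum_range_succ, ih]
    rcases Nat.even_or_odd' q with ⟨c, hc | hc⟩
    · have e0 : (10 * N + 5 * q) % 10 = 0 := by omega
      have e1 : (10 * N + 1 + 5 * q) % 10 = 1 := by omega
      have e2 : (10 * N + 1 + 1 + 5 * q) % 10 = 2 := by omega
      have e3 : (10 * N + 1 + 1 + 1 + 5 * q) % 10 = 3 := by omega
      have e4 : (10 * N + 1 + 1 + 1 + 1 + 5 * q) % 10 = 4 := by omega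
      have e5 : (10 * N + 1 + 1 + 1 + 1 + 1 + 5 * q) % 10 = 5 := by omega
      have e6 : (10 * N + 1 + 1 + 1 + 1 + 1 + 1 + 5 * q) % 10 = 6 := by omega
      have e7 : (10 * N + 1 + 1 + 1 + 1 + 1 + 1 + 1 + 5 * q) % 10 = 7 := by omega
      have e8 : (10 * N + 1 + 1 + 1 + 1 + 1 + 1 + 1 + 1 + 5 * q) % 10 = 8 := by omega
      have e9 : (10 * N + 1 + 1 + 1 + 1 + 1 + 1 + 1 + 1 + 1 + 5 * q) % 10 = 9 := by omega
      rw [e0, e1, e2, e3, e4, e5, e6, e7, e8, e9]
      simp only [off]
      ring
    · have e0 : (10 * N + 5 * q) % 10 = 5 := by omega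
      have e1 : (10 * N + 1 + 5 * q) % 10 = 6 := by omega
      have e2 : (10 * N + 1 + 1 + 5 * q) % 10 = 7 := by omega
      have e3 : (10 * N + 1 + 1 + 1 + 5 * q) % 10 = 8 := by omega
      have e4 : (10 * N + 1 + 1 + 1 + 1 + 5 * q) % 10 = 9 := by omega
      have e5 : (10 * N + 1 + 1 + 1 + 1 + 1 + 5 * q) % 10 = 0 := by omega
      have e6 : (10 * N + 1 + 1 + 1 + 1 + 1 + 1 + 5 * q) % 10 = 1 := by omega
      have e7 : (10 * N + 1 + 1 + 1 + 1 + 1 + 1 + 1 + 5 * q) % 10 = 2 := by omega
      have e8 : (10 * N + 1 + 1 + 1 + 1 + 1 + 1 + 1 + 1 + 5 * q) % 10 = 3 := by omega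
      have e9 : (10 * N + 1 + 1 + 1 + 1 + 1 + 1 + 1 + 1 + 1 + 5 * q) % 10 = 4 := by omega
      rw [e0, e1, e2, e3, e4, e5, e6, e7, e8, e9]
      simp only [off]
      ring

theorem lam_pair {t d : ℕ} (ht : t < 10) (h1 : 1 ≤ d) (h2 : d ≤ 6) :
    lam t d + lam ((t + 5) % 10) d = 2 := by
  interval_cases t <;> interval_cases d <;> decide +kernel

variable {M : ℕ} (P : Packing big M)

theorem pair (q j : ℕ) : rT P q j + lT P (q + 1) j = 2 := by
  have hb := dd_bd P (5 * q + 5) j
  have e5 : 5 * (q + 1) = 5 * q + 5 := by ring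
  have ht : (j + 5 * q) % 10 < 10 := Nat.mod_lt _ (by norm_num)
  unfold rT lT
  rw [e5]
  have et : (j + (5 * q + 5)) % 10 = ((j + 5 * q) % 10 + 5) % 10 := by omega
  rw [et]
  cases ex P (5 * q + 5) j 0
  · rfl
  · exact lam_pair ht hb.1 hb.2

theorem lT_zero (j : ℕ) : lT P 0 j = 1 := rfl

theorem sum_lr (j Q : ℕ) :
    ∑ q ∈ Finset.range Q, (lT P q j + rT P q j) + lT P Q j = 1 + 2 * Q := by
  induction Q with
  | zero => simp [lT_zero]
  | succ Q ih =>
    rw [Finset.sum_range_succ]
    have := pair P Q j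
    omega

theorem sum_cols (f : ℕ → ℕ) (Q : ℕ) :
    ∑ a ∈ Finset.range (5 * Q), f a =
      ∑ q ∈ Finset.range Q,
        (f (5 * q) + f (5 * q + 1) + f (5 * q + 2) + f (5 * q + 3) + f (5 * q + 4)) := by
  induction Q with
  | zero => simp
  | succ Q ih =>
    have h1 : 5 * (Q + 1) = 5 * Q + 1 + 1 + 1 + 1 + 1 := by ring
    rw [h1, Finset.sum_range_succ, Finset.sum_range_succ, Finset.sum_range_succ,
      Finset.sum_range_succ, Finset.sum_range_succ, ih, Finset.sum_range_succ]
    ring

/-- the lower bound for the number of uncovered points -/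
theorem cost_ge (N : ℕ) :
    2 * N * N ≤ ∑ j ∈ Finset.range (10 * N), ∑ a ∈ Finset.range (10 * N), ms P a j + 38 * N := by
  have h1 : ∀ q, 1 + 21 * N ≤
      ∑ j ∈ Finset.range (10 * N), (cost P q j + lT P q j + rT P q j) + 15 := by
    intro q
    have h2 := (pot_sum P q (10 * N)).2
    rw [sum_off] at h2
    have h3 := pot_le P q (10 * N)
    have h4 := pot_zero P q
    omega
  have h2 : 2 * N * (1 + 21 * N) ≤ ∑ j ∈ Finset.range (10 * N), ∑ q ∈ Finset.range (2 * N),
      (cost P q j + lT P q j + rT P q j) + 2 * N * 15 := by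
    have h2' := Finset.sum_le_sum (s := Finset.range (2 * N)) fun q _ => h1 q
    rw [Finset.sum_const, Finset.card_range, smul_eq_mul, Finset.sum_add_distrib,
      Finset.sum_const, Finset.card_range, smul_eq_mul] at h2'
    rw [Finset.sum_comm]
    exact h2'
  have h3 : ∀ j, ∑ q ∈ Finset.range (2 * N), (cost P q j + lT P q j + rT P q j) ≤
      ∑ a ∈ Finset.range (10 * N), ms P a j + (1 + 2 * (2 * N)) := by
    intro j
    have h4 := sum_lr P j (2 * N)
    have h5 := sum_cols (fun a => ms P a j) (2 * N)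
    have e1 : 5 * (2 * N) = 10 * N := by ring
    rw [e1] at h5
    rw [h5]
    have h6 : ∑ q ∈ Finset.range (2 * N), (cost P q j + lT P q j + rT P q j) =
        ∑ q ∈ Finset.range (2 * N), cost P q j +
          ∑ q ∈ Finset.range (2 * N), (lT P q j + rT P q j) := by
      rw [← Finset.sum_add_distrib]
      refine Finset.sum_congr rfl fun q _ => ?_
      ring
    rw [h6]
    have h7 : ∑ q ∈ Finset.range (2 * N), cost P q j = ∑ q ∈ Finset.range (2 * N),
        (ms P (5 * q) j + ms P (5 * q + 1) j + ms P (5 * q + 2) j + ms P (5 * q + 3) j +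
          ms P (5 * q + 4) j) := rfl
    rw [h7]
    omega
  have h4 : ∑ j ∈ Finset.range (10 * N), ∑ q ∈ Finset.range (2 * N),
      (cost P q j + lT P q j + rT P q j) ≤ ∑ j ∈ Finset.range (10 * N),
      (∑ a ∈ Finset.range (10 * N), ms P a j + (1 + 2 * (2 * N))) :=
    Finset.sum_le_sum fun j _ => h3 j
  rw [Finset.sum_add_distrib] at h4
  simp only [Finset.sum_const, Finset.card_range, smul_eq_mul] at h4
  nlinarith [h2, h4]

/-- the number of the corners covering the point `(a, j)` -/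
def cv (a j : ℕ) : ℕ :=
  (match j with
    | 0 => 0
    | j + 1 => (ex P a j 3).toNat + (ex P (a + 1) j 2).toNat) +
  (ex P a j 1).toNat + (ex P (a + 1) j 0).toNat

theorem cv_ms (a j : ℕ) : cv P a j + ms P a j ≤ 1 := by
  have h1 := point_le P a j
  cases j with
  | zero =>
    unfold cv ms
    change 0 + (ex P a 0 1).toNat + (ex P (a + 1) 0 0).toNat +
      miss false (ex P a 0 1) (ex P (a + 1) 0 0) ≤ 1
    change Bool.toNat false + (ex P a 0 1).toNat + (ex P (a + 1) 0 0).toNat ≤ 1 at h1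
    revert h1
    cases ex P a 0 1 <;> cases ex P (a + 1) 0 0 <;> simp [miss]
  | succ j =>
    have h2 := up_le P a j
    unfold cv ms
    change (ex P a j 3).toNat + (ex P (a + 1) j 2).toNat + (ex P a (j + 1) 1).toNat +
      (ex P (a + 1) (j + 1) 0).toNat +
      miss (ex P a j 3 || ex P (a + 1) j 2) (ex P a (j + 1) 1) (ex P (a + 1) (j + 1) 0) ≤ 1
    change Bool.toNat (ex P a j 3 || ex P (a + 1) j 2) + (ex P a (j + 1) 1).toNat +
      (ex P (a + 1) (j + 1) 0).toNat ≤ 1 at h1
    revert h1 h2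
    cases ex P a j 3 <;> cases ex P (a + 1) j 2 <;> cases ex P a (j + 1) 1 <;>
      cases ex P (a + 1) (j + 1) 0 <;> simp [miss]

theorem shift_sum (x : ℕ → ℕ) (B M : ℕ) (hx : ∀ i, x i ≤ B) (y : ℕ → ℕ)
    (hy : ∀ i, x i ≤ y (i + 1)) :
    ∑ i ∈ Finset.range M, x i ≤ ∑ a ∈ Finset.range M, y a + B := by
  cases M with
  | zero => simp
  | succ M =>
    rw [Finset.sum_range_succ, Finset.sum_range_succ']
    have h1 : ∑ a ∈ Finset.range M, x a ≤ ∑ a ∈ Finset.range M, y (a + 1) :=
      Finset.sum_le_sum fun a _ => hy a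
    have := hx M
    omega

/-- the number of the corners covering points of row `j` from below -/
def low (P : Packing big M) (m j : ℕ) : ℕ :=
  ∑ a ∈ Finset.range m, (match j with
    | 0 => 0
    | j + 1 => (ex P a j 3).toNat + (ex P (a + 1) j 2).toNat)

theorem weight_le :
    P.weight ≤ ∑ j ∈ Finset.range M, ∑ a ∈ Finset.range M, cv P a j + 4 * M := by
  have hk : ∀ i j k, (P.c i j k).toNat ≤ 1 := fun i j k => Bool.toNat_le _
  -- the four kinds of corners
  have w0 : ∀ j, ∑ i ∈ Finset.range M, (P.c i j 0).toNat =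
      ∑ a ∈ Finset.range M, (ex P (a + 1) j 0).toNat := fun j => rfl
  have w1 : ∀ j, ∑ i ∈ Finset.range M, (P.c i j 1).toNat ≤
      ∑ a ∈ Finset.range M, (ex P a j 1).toNat + 1 := fun j =>
    shift_sum (fun i => (P.c i j 1).toNat) 1 M (fun i => hk i j 1)
      (fun a => (ex P a j 1).toNat) (fun i => le_rfl)
  have w3 : ∀ j, ∑ i ∈ Finset.range M, (P.c i j 3).toNat ≤
      ∑ a ∈ Finset.range M, (ex P a j 3).toNat + 1 := fun j =>
    shift_sum (fun i => (P.c i j 3).toNat) 1 M (fun i => hk i j 3)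
      (fun a => (ex P a j 3).toNat) (fun i => le_rfl)
  have hM1 : ∀ j, ∑ i ∈ Finset.range M, (P.c i j 2).toNat ≤ M := by
    intro j
    have := Finset.sum_le_sum (s := Finset.range M) fun i _ => hk i j 2
    simpa using this
  have hM3 : ∀ j, ∑ i ∈ Finset.range M, (P.c i j 3).toNat ≤ M := by
    intro j
    have := Finset.sum_le_sum (s := Finset.range M) fun i _ => hk i j 3
    simpa using this
  have v1 : ∑ j ∈ Finset.range M, ∑ i ∈ Finset.range M, (P.c i j 1).toNat ≤
      ∑ j ∈ Finset.range M, ∑ a ∈ Finset.range M, (ex P a j 1).toNat + M := by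
    have := Finset.sum_le_sum (s := Finset.range M) fun j _ => w1 j
    rw [Finset.sum_add_distrib, Finset.sum_const, Finset.card_range, smul_eq_mul, mul_one]
      at this
    exact this
  -- the two upper corners
  have v2 : ∑ j ∈ Finset.range M, (∑ i ∈ Finset.range M, (P.c i j 2).toNat +
      ∑ i ∈ Finset.range M, (P.c i j 3).toNat) ≤
      ∑ j ∈ Finset.range M, (low P M j + 1) + 2 * M := by
    refine shift_sum _ (2 * M) M (fun j => ?_) _ (fun j => ?_)
    · have := hM1 j
      have := hM3 j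
      omega
    · have h1 := w3 j
      have h2 : low P M (j + 1) = ∑ a ∈ Finset.range M, (ex P a j 3).toNat +
          ∑ a ∈ Finset.range M, (ex P (a + 1) j 2).toNat := by
        rw [← Finset.sum_add_distrib]
        rfl
      have h3 : ∑ a ∈ Finset.range M, (ex P (a + 1) j 2).toNat =
        ∑ i ∈ Finset.range M, (P.c i j 2).toNat := rfl
      rw [h2, h3]
      omega
  rw [Finset.sum_add_distrib (g := fun _ => 1), Finset.sum_const, Finset.card_range,
    smul_eq_mul, mul_one, Finset.sum_add_distrib] at v2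
  have v3 : P.weight = ∑ j ∈ Finset.range M, ∑ i ∈ Finset.range M, (P.c i j 0).toNat +
      ∑ j ∈ Finset.range M, ∑ i ∈ Finset.range M, (P.c i j 1).toNat +
      ∑ j ∈ Finset.range M, ∑ i ∈ Finset.range M, (P.c i j 2).toNat +
      ∑ j ∈ Finset.range M, ∑ i ∈ Finset.range M, (P.c i j 3).toNat := by
    unfold Packing.weight
    rw [Finset.sum_comm, ← Finset.sum_add_distrib, ← Finset.sum_add_distrib,
      ← Finset.sum_add_distrib]
    refine Finset.sum_congr rfl fun j _ => ?_
    rw [← Finset.sum_add_distrib, ← Finset.sum_add_distrib, ← Finset.sum_add_distrib]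
    refine Finset.sum_congr rfl fun i _ => ?_
    rw [Fin.sum_univ_four]
  have v4 : ∑ j ∈ Finset.range M, ∑ a ∈ Finset.range M, cv P a j =
      ∑ j ∈ Finset.range M, low P M j +
      ∑ j ∈ Finset.range M, ∑ a ∈ Finset.range M, (ex P a j 1).toNat +
      ∑ j ∈ Finset.range M, ∑ a ∈ Finset.range M, (ex P (a + 1) j 0).toNat := by
    rw [← Finset.sum_add_distrib, ← Finset.sum_add_distrib]
    refine Finset.sum_congr rfl fun j _ => ?_
    unfold low cv
    rw [← Finset.sum_add_distrib, ← Finset.sum_add_distrib]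
  have v0 : ∑ j ∈ Finset.range M, ∑ i ∈ Finset.range M, (P.c i j 0).toNat =
      ∑ j ∈ Finset.range M, ∑ a ∈ Finset.range M, (ex P (a + 1) j 0).toNat := rfl
  rw [v3, v4, v0]
  omega

/-- **Density bound.**  Every packing of the board of size `10 N` covers at most
`49/50 · (10 N) ^ 2 + 390 · (10 N) / 50` lattice points. -/
theorem density (N : ℕ) (P : Packing big (10 * N)) :
    50 * P.weight ≤ 49 * (10 * N) ^ 2 + 390 * (10 * N) := by
  have h1 := cost_ge P N
  have h2 := weight_le P
  have h3 : ∑ j ∈ Finset.range (10 * N), ∑ a ∈ Finset.range (10 * N), cv P a j +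
      ∑ j ∈ Finset.range (10 * N), ∑ a ∈ Finset.range (10 * N), ms P a j ≤
      (10 * N) * (10 * N) := by
    rw [← Finset.sum_add_distrib]
    calc ∑ j ∈ Finset.range (10 * N), (∑ a ∈ Finset.range (10 * N), cv P a j +
          ∑ a ∈ Finset.range (10 * N), ms P a j)
        ≤ ∑ _j ∈ Finset.range (10 * N), 10 * N := by
          refine Finset.sum_le_sum fun j _ => ?_
          rw [← Finset.sum_add_distrib]
          calc ∑ a ∈ Finset.range (10 * N), (cv P a j + ms P a j)
              ≤ ∑ _a ∈ Finset.range (10 * N), 1 := Finset.sum_le_sum fun a _ => cv_ms P a j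
            _ = 10 * N := by simp
      _ = (10 * N) * (10 * N) := by simp
  nlinarith [h1, h2, h3]

end Pool.Agent.Helper14.RadoUB
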