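import Pool.Agent.Helper14.RadoUB.Cert

/-!
# Soundness of the check
-/

namespace Pool.Agent.Helper14.RadoUB

theorem allB_use {f : Bool → Bool} (h : allB f = true) (b : Bool) : f b = true := by
  unfold allB at h
  rw [Bool.and_eq_true] at h
  cases b
  · exact h.1
  · exact h.2

theorem allN_use {f : ℕ → Bool} {n : ℕ} (h : allN n f = true) {i : ℕ} (h1 : 1 ≤ i)
    (h2 : i ≤ n) : f i = true := by
  induction n with
  | zero => omega
  | succ n ih =>
    unfold allN at h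
    rw [Bool.and_eq_true] at h
    rcases Nat.lt_or_ge i (n + 1) with h3 | h3
    · exact ih h.2 (by omega)
    · have h4 : i = n + 1 := by omega
      rw [h4]
      exact h.1

/-- a valid item with the corners `a`, `b`, `c`, `d` -/
def Itm (big a b c d : Bool) : Prop :=
  (big = true → a = b ∧ b = c ∧ c = d) ∧
    (big = false → a.toNat + b.toNat + c.toNat + d.toNat ≤ 1)

theorem cell_use {big a c r : Bool} {f : Bool → Bool → Bool → Bool → Bool}
    (h : cell big a c r f = true) {x0 x1 x2 x3 : Bool} (hi : Itm big x0 x1 x2 x3)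
    (h0 : (a && x0) = false) (h2 : (c && x2) = false) (h1 : (r && x1) = false) :
    f x0 x1 x2 x3 = true := by
  unfold cell at h
  unfold Itm at hi
  cases big
  · have h3 := hi.2 rfl
    cases x0 <;> cases x1 <;> cases x2 <;> cases x3 <;> cases a <;> cases c <;> cases r <;>
      simp_all
  · have h3 := hi.1 rfl
    obtain ⟨e1, e2, e3⟩ := h3
    subst e1 e2 e3
    cases x0 <;> cases a <;> cases c <;> cases r <;> simp_all

theorem bet_use {x : Bool} {f : Bool → Bool} (h : bet x f = true) {u : Bool}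
    (h0 : (x && u) = false) : f u = true := by
  unfold bet at h
  cases u <;> cases x <;> simp_all

theorem b3 (x y z : Bool) : x.toNat + y.toNat + z.toNat ≤ 1 → ((x || y) && z) = false := by
  cases x <;> cases y <;> cases z <;> simp

theorem b31 (x y z : Bool) : x.toNat + y.toNat + z.toNat ≤ 1 → (x && y) = false := by
  cases x <;> cases y <;> cases z <;> simp

theorem b32 (x y z : Bool) : x.toNat + y.toNat + z.toNat ≤ 1 → (x && z) = false := by
  cases x <;> cases y <;> cases z <;> simp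

theorem b2 (x y : Bool) : x.toNat + y.toNat ≤ 1 → (x && y) = false := by
  cases x <;> cases y <;> simp

theorem row_use {h r0 r1 r2 r3 r4 bl br : Bool} {F : Bool → Bool → ℕ → ℕ → Bool}
    (H : row h r0 r1 r2 r3 r4 bl br F = true)
    {lu ru a0 b0 c0 d0 a1 b1 c1 d1 a2 b2' c2 d2 a3 b3' c3 d3 : Bool}
    (i0 : Itm h a0 b0 c0 d0) (i1 : Itm true a1 b1 c1 d1) (i2 : Itm true a2 b2' c2 d2)
    (i3 : Itm h a3 b3' c3 d3) (hl : (bl && lu) = false) (hr : (br && ru) = false)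
    (p0 : r0.toNat + lu.toNat + a0.toNat ≤ 1) (p1 : r1.toNat + b0.toNat + a1.toNat ≤ 1)
    (p2 : r2.toNat + b1.toNat + a2.toNat ≤ 1) (p3 : r3.toNat + b2'.toNat + a3.toNat ≤ 1)
    (p4 : r4.toNat + b3'.toNat + ru.toNat ≤ 1)
    (n0 : lu.toNat + c0.toNat ≤ 1) (n1 : d0.toNat + c1.toNat ≤ 1)
    (n2 : d1.toNat + c2.toNat ≤ 1) (n3 : d2.toNat + c3.toNat ≤ 1)
    (n4 : d3.toNat + ru.toNat ≤ 1) :
    F lu ru
      (miss r0 lu a0 + (miss r1 b0 a1 + (miss r2 b1 a2 + (miss r3 b2' a3 + miss r4 b3' ru))))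
      (code (lu || c0) (d0 || c1) (d1 || c2) (d2 || c3) (d3 || ru)) = true := by
  unfold row at H
  have H1 := bet_use H (u := lu) (by
    have h1 := b31 _ _ _ p0
    revert h1 hl
    cases r0 <;> cases lu <;> cases bl <;> simp)
  have H2 := cell_use H1 i0 (b3 _ _ _ p0) (b2 _ _ n0) (b31 _ _ _ p1)
  have H3 := cell_use H2 i1 (b3 _ _ _ p1) (b2 _ _ n1) (b31 _ _ _ p2)
  have H4 := cell_use H3 i2 (b3 _ _ _ p2) (b2 _ _ n2) (b31 _ _ _ p3)
  have H5 := cell_use H4 i3 (b3 _ _ _ p3) (b2 _ _ n3) (b31 _ _ _ p4)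
  have H6 := bet_use H5 (u := ru) (by
    have h1 := b3 _ _ _ p4
    have h2 := b2 _ _ n4
    revert h1 h2 hr
    cases r4 <;> cases b3' <;> cases d3 <;> cases br <;> cases ru <;> simp)
  exact H6

theorem beq1 {d : ℕ} (h : d ≠ 1) : Nat.beq d 1 = false := by
  cases h2 : Nat.beq d 1
  · rfl
  · exact absurd (Nat.eq_of_beq_eq_true h2) h

theorem chkP_all {t : ℕ} (ht : t < 10) : chkP t = true := by
  interval_cases t
  · exact chk0
  · exact chk1
  · exact chk2
  · exact chk3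
  · exact chk4
  · exact chk5
  · exact chk6
  · exact chk7
  · exact chk8
  · exact chk9

/-- one row of a strip -/
theorem step {t dl dr : ℕ} (ht : t < 10) (hdl1 : 1 ≤ dl) (hdl2 : dl ≤ 6) (hdr1 : 1 ≤ dr)
    (hdr2 : dr ≤ 6) {r0 r1 r2 r3 r4 : Bool} (hv : phi t (code r0 r1 r2 r3 r4) dl dr ≠ 0)
    {lu ru a0 b0 c0 d0 a1 b1 c1 d1 a2 b2' c2 d2 a3 b3' c3 d3 : Bool}
    (i0 : Itm (typ t) a0 b0 c0 d0) (i1 : Itm true a1 b1 c1 d1) (i2 : Itm true a2 b2' c2 d2)
    (i3 : Itm (typ t) a3 b3' c3 d3) (hl : lu = true → dl ≠ 1) (hr : ru = true → dr ≠ 1)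
    (p0 : r0.toNat + lu.toNat + a0.toNat ≤ 1) (p1 : r1.toNat + b0.toNat + a1.toNat ≤ 1)
    (p2 : r2.toNat + b1.toNat + a2.toNat ≤ 1) (p3 : r3.toNat + b2'.toNat + a3.toNat ≤ 1)
    (p4 : r4.toNat + b3'.toNat + ru.toNat ≤ 1)
    (n0 : lu.toNat + c0.toNat ≤ 1) (n1 : d0.toNat + c1.toNat ≤ 1)
    (n2 : d1.toNat + c2.toNat ≤ 1) (n3 : d2.toNat + c3.toNat ≤ 1)
    (n4 : d3.toNat + ru.toNat ≤ 1) :
    phi ((t + 1) % 10) (code (lu || c0) (d0 || c1) (d1 || c2) (d2 || c3) (d3 || ru))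
      (nxt dl lu) (nxt dr ru) ≠ 0 ∧
    phi t (code r0 r1 r2 r3 r4) dl dr + (2 + off t) ≤
      (miss r0 lu a0 + (miss r1 b0 a1 + (miss r2 b1 a2 + (miss r3 b2' a3 + miss r4 b3' ru)))) +
      (lamU t dl lu + (lamU t dr ru +
      phi ((t + 1) % 10) (code (lu || c0) (d0 || c1) (d1 || c2) (d2 || c3) (d3 || ru))
      (nxt dl lu) (nxt dr ru))) := by
  have h1 := chkP_all ht
  unfold chkP at h1
  have h2 := allN_use h1 hdl1 hdl2
  have h3 := allN_use h2 hdr1 hdr2
  have h4 := allB_use (allB_use (allB_use (allB_use (allB_use h3 r0) r1) r2) r3) r4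
  unfold chk at h4
  generalize hphi : phi t (code r0 r1 r2 r3 r4) dl dr = v at h4 hv ⊢
  cases v with
  | zero => exact absurd rfl hv
  | succ v =>
    have h5 := row_use h4 i0 i1 i2 i3 (by
      cases lu
      · simp
      · rw [beq1 (hl rfl)]
        rfl) (by
      cases ru
      · simp
      · rw [beq1 (hr rfl)]
        rfl) p0 p1 p2 p3 p4 n0 n1 n2 n3 n4
    unfold fin at h5
    have e1 : Nat.mod (Nat.add t 1) 10 = (t + 1) % 10 := rfl
    rw [e1] at h5
    generalize hphi' : phi ((t + 1) % 10)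
      (code (lu || c0) (d0 || c1) (d1 || c2) (d2 || c3) (d3 || ru))
      (nxt dl lu) (nxt dr ru) = w at h5 ⊢
    cases w with
    | zero => exact absurd h5 (by simp)
    | succ w =>
      have h6 := Nat.le_of_ble_eq_true h5
      exact ⟨by omega, h6⟩

end Pool.Agent.Helper14.RadoUB
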