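import Pool.Agent.Helper14.RadoUB.Sound
import Pool.Agent.Helper14.RadoUB.Defs

/-!
# Summation over the strips
-/

namespace Pool.Agent.Helper14.RadoUB

/-- the pattern: the quarter cells are the cells in the inner columns `0` and `3` of a strip in
the rows of the phases `1` and `8`; neighbouring strips are shifted by half a period -/
def big (i j : ℕ) : Bool :=
  !((Nat.beq (i % 5) 0 || Nat.beq (i % 5) 3) &&
    (Nat.beq ((j + 5 * (i / 5)) % 10) 1 || Nat.beq ((j + 5 * (i / 5)) % 10) 8))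

theorem big_q (q j : ℕ) (k : ℕ) (hk : k < 5) (h0 : k ≠ 0) (h3 : k ≠ 3) :
    big (5 * q + k) j = true := by
  have h1 : (5 * q + k) % 5 = k := by omega
  unfold big
  rw [h1]
  have h4 : Nat.beq k 0 = false := by
    cases h5 : Nat.beq k 0
    · rfl
    · exact absurd (Nat.eq_of_beq_eq_true h5) h0
  have h6 : Nat.beq k 3 = false := by
    cases h5 : Nat.beq k 3
    · rfl
    · exact absurd (Nat.eq_of_beq_eq_true h5) h3
  rw [h4, h6]
  rfl

theorem big_0 (q j : ℕ) : big (5 * q) j = typ ((j + 5 * q) % 10) := by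
  have h1 : (5 * q) % 5 = 0 := by omega
  have h2 : (5 * q) / 5 = q := by omega
  unfold big typ
  rw [h1, h2]
  simp

theorem big_3 (q j : ℕ) : big (5 * q + 3) j = typ ((j + 5 * q) % 10) := by
  have h1 : (5 * q + 3) % 5 = 3 := by omega
  have h2 : (5 * q + 3) / 5 = q := by omega
  unfold big typ
  rw [h1, h2]
  simp

variable {M : ℕ} (P : Packing big M)

/-- the corners of the cell `(a - 1, j)` -/
def ex (a j : ℕ) (k : Fin 4) : Bool :=
  match a with
  | 0 => false
  | a + 1 => P.c a j k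

/-- the point `(a, j)` is covered from below -/
def rr (a j : ℕ) : Bool :=
  match j with
  | 0 => false
  | j + 1 => ex P a j 3 || ex P (a + 1) j 2

theorem or_toNat (x y : Bool) : (x || y).toNat ≤ x.toNat + y.toNat := by
  cases x <;> cases y <;> simp

theorem point_le (a j : ℕ) :
    (rr P a j).toNat + (ex P a j 1).toNat + (ex P (a + 1) j 0).toNat ≤ 1 := by
  cases a with
  | zero =>
    cases j with
    | zero =>
      change Bool.toNat false + Bool.toNat false + (P.c 0 0 0).toNat ≤ 1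
      have := Bool.toNat_le (P.c 0 0 0)
      simp only [Bool.toNat_false]
      omega
    | succ j =>
      change Bool.toNat (false || P.c 0 j 2) + Bool.toNat false + (P.c 0 (j + 1) 0).toNat ≤ 1
      have := P.left j
      simp only [Bool.toNat_false, Bool.false_or]
      omega
  | succ a =>
    cases j with
    | zero =>
      change Bool.toNat false + (P.c a 0 1).toNat + (P.c (a + 1) 0 0).toNat ≤ 1
      have := P.bottom a
      simp only [Bool.toNat_false]
      omega
    | succ j =>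
      change Bool.toNat (P.c a j 3 || P.c (a + 1) j 2) + (P.c a (j + 1) 1).toNat +
        (P.c (a + 1) (j + 1) 0).toNat ≤ 1
      have := P.inner a j
      have := or_toNat (P.c a j 3) (P.c (a + 1) j 2)
      omega

theorem up_le (a j : ℕ) : (ex P a j 3).toNat + (ex P (a + 1) j 2).toNat ≤ 1 := by
  cases a with
  | zero =>
    change Bool.toNat false + (P.c 0 j 2).toNat ≤ 1
    have := P.left j
    simp only [Bool.toNat_false]
    omega
  | succ a =>
    change (P.c a j 3).toNat + (P.c (a + 1) j 2).toNat ≤ 1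
    have := P.inner a j
    omega

theorem itm (a j : ℕ) :
    Itm (big a j) (ex P (a + 1) j 0) (ex P (a + 1) j 1) (ex P (a + 1) j 2)
      (ex P (a + 1) j 3) := by
  change Itm (big a j) (P.c a j 0) (P.c a j 1) (P.c a j 2) (P.c a j 3)
  refine ⟨fun h => ⟨P.blk a j h _ _, P.blk a j h _ _, P.blk a j h _ _⟩, fun h => ?_⟩
  have h1 := P.mono a j h
  have h01 := h1 0 1
  have h02 := h1 0 2
  have h03 := h1 0 3
  have h12 := h1 1 2
  have h13 := h1 1 3
  have h23 := h1 2 3
  revert h01 h02 h03 h12 h13 h23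
  generalize P.c a j 0 = x0
  generalize P.c a j 1 = x1
  generalize P.c a j 2 = x2
  generalize P.c a j 3 = x3
  cases x0 <;> cases x1 <;> cases x2 <;> cases x3 <;> simp

theorem btw (q j : ℕ) (k : Fin 4) : ex P (5 * q) j k = ex P (5 * q) j 0 := by
  cases q with
  | zero => rfl
  | succ q =>
    change P.c (5 * q + 4) j k = P.c (5 * q + 4) j 0
    exact P.blk _ _ (big_q q j 4 (by omega) (by omega) (by omega)) _ _

/-- the distance to the last used cell of the column -/
def dd (a : ℕ) : ℕ → ℕ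
  | 0 => 6
  | j + 1 => nxt (dd a j) (ex P a j 0)

theorem dd_bd (a j : ℕ) : 1 ≤ dd P a j ∧ dd P a j ≤ 6 := by
  induction j with
  | zero =>
    change 1 ≤ 6 ∧ 6 ≤ 6
    omega
  | succ j ih =>
    change 1 ≤ nxt (dd P a j) (ex P a j 0) ∧ nxt (dd P a j) (ex P a j 0) ≤ 6
    cases ex P a j 0
    · change 1 ≤ min (dd P a j + 1) 6 ∧ min (dd P a j + 1) 6 ≤ 6
      omega
    · change 1 ≤ 1 ∧ 1 ≤ 6
      omega

theorem dd_ne (q j : ℕ) (h : ex P (5 * q) j 0 = true) : dd P (5 * q) j ≠ 1 := by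
  cases j with
  | zero =>
    change (6 : ℕ) ≠ 1
    decide
  | succ j =>
    intro h1
    change nxt (dd P (5 * q) j) (ex P (5 * q) j 0) = 1 at h1
    cases h2 : ex P (5 * q) j 0
    · rw [h2] at h1
      change min (dd P (5 * q) j + 1) 6 = 1 at h1
      have := dd_bd P (5 * q) j
      omega
    · have h3 := point_le P (5 * q) (j + 1)
      have h4 : rr P (5 * q) (j + 1) = true := by
        change (ex P (5 * q) j 3 || ex P (5 * q + 1) j 2) = true
        rw [btw P q j 3, h2]
        rfl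
      have h5 : ex P (5 * q) (j + 1) 1 = true := by
        rw [btw P q (j + 1) 1, h]
      rw [h4, h5] at h3
      simp only [Bool.toNat_true] at h3
      omega

/-- the potential before row `j` in strip `q` -/
def pot (q j : ℕ) : ℕ :=
  phi ((j + 5 * q) % 10) (code (rr P (5 * q) j) (rr P (5 * q + 1) j) (rr P (5 * q + 2) j)
    (rr P (5 * q + 3) j) (rr P (5 * q + 4) j)) (dd P (5 * q) j) (dd P (5 * q + 5) j)

/-- one when the point is not covered -/
def ms (a j : ℕ) : ℕ := miss (rr P a j) (ex P a j 1) (ex P (a + 1) j 0)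

/-- the left term -/
def lT (q j : ℕ) : ℕ := lamU ((j + 5 * q) % 10) (dd P (5 * q) j) (ex P (5 * q) j 0)

/-- the right term -/
def rT (q j : ℕ) : ℕ := lamU ((j + 5 * q) % 10) (dd P (5 * q + 5) j) (ex P (5 * q + 5) j 0)

/-- the cost of a row of a strip -/
def cost (q j : ℕ) : ℕ :=
  ms P (5 * q) j + ms P (5 * q + 1) j + ms P (5 * q + 2) j + ms P (5 * q + 3) j +
    ms P (5 * q + 4) j

theorem pot_step (q j : ℕ) (h : pot P q j ≠ 0) :
    pot P q (j + 1) ≠ 0 ∧
    pot P q j + (2 + off ((j + 5 * q) % 10)) ≤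
      cost P q j + lT P q j + rT P q j + pot P q (j + 1) := by
  have hb1 := dd_bd P (5 * q) j
  have hb2 := dd_bd P (5 * q + 5) j
  have hn1 := dd_ne P q j
  have hn2 := dd_ne P (q + 1) j
  have e5 : 5 * (q + 1) = 5 * q + 5 := by ring
  rw [e5] at hn2
  have i0 := itm P (5 * q) j
  rw [big_0] at i0
  have i1 := itm P (5 * q + 1) j
  rw [big_q q j 1 (by omega) (by omega) (by omega)] at i1
  have i2 := itm P (5 * q + 2) j
  rw [big_q q j 2 (by omega) (by omega) (by omega)] at i2
  have i3 := itm P (5 * q + 3) j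
  rw [big_3] at i3
  have b1 := btw P q j 1
  have b3 := btw P q j 3
  have b52 := btw P (q + 1) j 2
  rw [e5] at b52
  have p0 := point_le P (5 * q) j
  rw [b1] at p0
  have p1 := point_le P (5 * q + 1) j
  have p2 := point_le P (5 * q + 2) j
  have p3 := point_le P (5 * q + 3) j
  have p4 := point_le P (5 * q + 4) j
  have n0 := up_le P (5 * q) j
  rw [b3] at n0
  have n1 := up_le P (5 * q + 1) j
  have n2 := up_le P (5 * q + 2) j
  have n3 := up_le P (5 * q + 3) j
  have n4 := up_le P (5 * q + 4) j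
  change (ex P (5 * q + 4) j 3).toNat + (ex P (5 * q + 5) j 2).toNat ≤ 1 at n4
  rw [b52] at n4
  have ht : (j + 5 * q) % 10 < 10 := Nat.mod_lt _ (by norm_num)
  have h1 := step ht hb1.1 hb1.2 hb2.1 hb2.2 h i0 i1 i2 i3 hn1 hn2 p0 p1 p2 p3 p4 n0 n1 n2 n3 n4
  have et : ((j + 5 * q) % 10 + 1) % 10 = (j + 1 + 5 * q) % 10 := by omega
  rw [et] at h1
  have r0 : rr P (5 * q) (j + 1) = (ex P (5 * q) j 0 || ex P (5 * q + 1) j 2) := by
    change (ex P (5 * q) j 3 || ex P (5 * q + 1) j 2) = _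
    rw [b3]
  have r4 : rr P (5 * q + 4) (j + 1) = (ex P (5 * q + 4) j 3 || ex P (5 * q + 5) j 0) := by
    change (ex P (5 * q + 4) j 3 || ex P (5 * q + 5) j 2) = _
    rw [b52]
  have epot : pot P q (j + 1) =
      phi ((j + 1 + 5 * q) % 10)
        (code (ex P (5 * q) j 0 || ex P (5 * q + 1) j 2)
          (ex P (5 * q + 1) j 3 || ex P (5 * q + 1 + 1) j 2)
          (ex P (5 * q + 2) j 3 || ex P (5 * q + 2 + 1) j 2)
          (ex P (5 * q + 3) j 3 || ex P (5 * q + 3 + 1) j 2)
          (ex P (5 * q + 4) j 3 || ex P (5 * q + 5) j 0))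
        (nxt (dd P (5 * q) j) (ex P (5 * q) j 0))
        (nxt (dd P (5 * q + 5) j) (ex P (5 * q + 5) j 0)) := by
    unfold pot
    rw [r0, r4]
    rfl
  have e0 : ms P (5 * q) j =
      miss (rr P (5 * q) j) (ex P (5 * q) j 0) (ex P (5 * q + 1) j 0) := by
    unfold ms
    rw [b1]
  rw [epot]
  refine ⟨h1.1, ?_⟩
  have h2 := h1.2
  unfold cost
  rw [e0]
  unfold lT rT ms
  have e1 : pot P q j =
    phi ((j + 5 * q) % 10) (code (rr P (5 * q) j) (rr P (5 * q + 1) j) (rr P (5 * q + 2) j)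
    (rr P (5 * q + 3) j) (rr P (5 * q + 4) j)) (dd P (5 * q) j) (dd P (5 * q + 5) j) := rfl
  rw [e1]
  change _ ≤ miss (rr P (5 * q) j) (ex P (5 * q) j 0) (ex P (5 * q + 1) j 0) +
    miss (rr P (5 * q + 1) j) (ex P (5 * q + 1) j 1) (ex P (5 * q + 2) j 0) +
    miss (rr P (5 * q + 2) j) (ex P (5 * q + 2) j 1) (ex P (5 * q + 3) j 0) +
    miss (rr P (5 * q + 3) j) (ex P (5 * q + 3) j 1) (ex P (5 * q + 4) j 0) +
    miss (rr P (5 * q + 4) j) (ex P (5 * q + 4) j 1) (ex P (5 * q + 5) j 0) + _ + _ + _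
  refine le_trans h2 (le_of_eq ?_)
  ring

theorem pot_le (q j : ℕ) : pot P q j ≤ 15 := by
  unfold pot phi
  have := Nat.mod_lt (Nat.shiftRight (TT ((j + 5 * q) % 10)) (Nat.mul 4 (Nat.add (Nat.mul 49
    (code (rr P (5 * q) j) (rr P (5 * q + 1) j) (rr P (5 * q + 2) j)
    (rr P (5 * q + 3) j) (rr P (5 * q + 4) j))) (Nat.add (Nat.mul 7 (dd P (5 * q) j))
      (dd P (5 * q + 5) j))))) (show 16 > 0 by norm_num)
  exact Nat.lt_succ_iff.mp this

theorem pot_zero (q : ℕ) : pot P q 0 ≠ 0 := by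
  have h1 : pot P q 0 = phi ((0 + 5 * q) % 10) 0 6 6 := rfl
  rw [h1]
  have h2 : (0 + 5 * q) % 10 = 0 ∨ (0 + 5 * q) % 10 = 5 := by omega
  rcases h2 with h2 | h2
  · rw [h2]
    decide +kernel
  · rw [h2]
    decide +kernel

theorem pot_sum (q J : ℕ) :
    pot P q J ≠ 0 ∧ pot P q 0 + ∑ j ∈ Finset.range J, (2 + off ((j + 5 * q) % 10)) ≤
      ∑ j ∈ Finset.range J, (cost P q j + lT P q j + rT P q j) + pot P q J := by
  induction J with
  | zero =>
    refine ⟨pot_zero P q, ?_⟩
    simp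
  | succ J ih =>
    have h1 := pot_step P q J ih.1
    refine ⟨h1.1, ?_⟩
    rw [Finset.sum_range_succ, Finset.sum_range_succ]
    have h2 := ih.2
    have h3 := h1.2
    omega

end Pool.Agent.Helper14.RadoUB
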